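import Pool.Agent.H84.ND.Targets2
import Pool.Agent.H74.SM.CONN

/-!
# MP_70ba79_ag, board `ndc_modules`, row CNN: the irreducible sections of weight 3 and very
negative twist are connections
-/

set_option autoImplicit false

namespace Pool.Agent.H78.ND

open MvPolynomial SC Pool.Agent.H27.LV Pool.Agent.H84.SM Pool.Agent.H84.ND
open Pool.Agent.H74.SM (Psi_C Psi_X natCast_unit exists_xa sub_xa wx_xa dvd_of_xb)

theorem pf_CNN (hJSA : T_JSA) (hCPO : T_CPO) (hCSA : T_CSA) (hORN : T_ORN) (hGPN : T_GPN) :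
    T_CNN := by
  intro k _ _ _ G d hd hN e M' P hPi hPd hPinv hPh hdvd htw
  have hI : Ird G d := hN.ird
  obtain ⟨-, hgp, -, hgR, -⟩ := hGPN k G d hI
  obtain ⟨g, hg⟩ : ∃ g : B2 k, g = aeval xb G := ⟨_, rfl⟩
  rw [← hg] at hgp
  have hg0 : g ≠ 0 := hgp.ne_zero
  obtain ⟨j, rfl⟩ : ∃ j, M' = j + 1 := by
    rcases Nat.eq_zero_or_pos M' with h | h
    · subst h
      simp at htw
      omega
    · exact ⟨M' - 1, by omega⟩
  obtain ⟨c0, hc0⟩ : ∃ c, c = P.coeff 0 := ⟨_, rfl⟩
  obtain ⟨c1, hc1⟩ : ∃ c, c = P.coeff 1 := ⟨_, rfl⟩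
  have hP2 : ∀ i, 1 < i → P.coeff i = 0 := fun i hi => (hPh i).2 (by omega)
  have hB0 : BH e 3 c0 := by
    rw [hc0]
    exact (hPh 0).1 (by omega)
  have hB1 : BH e 0 c1 := by
    rw [hc1]
    exact (hPh 1).1 (by omega)
  have hPn : P.natDegree ≤ 1 := Polynomial.natDegree_le_iff_coeff_eq_zero.2 hP2
  have hPe : P = Polynomial.C c1 * Polynomial.X + Polynomial.C c0 := by
    rw [hc0, hc1]
    exact Polynomial.eq_X_add_C_of_natDegree_le_one hPn
  have hc10 : c1 ≠ 0 := by
    intro h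
    rw [h, map_zero, zero_mul, zero_add] at hPe
    have h1 : P.natDegree = 0 := by
      rw [hPe]
      exact Polynomial.natDegree_C _
    omega
  obtain ⟨σ, hσ⟩ : ∃ σ : Fin 3 → (A2 k →ₐ[k] B2 k), σ = fun l =>
    aeval (Sum.elim xb (chy G l)) := ⟨_, rfl⟩
  obtain ⟨H, hH⟩ : ∃ H : Fin 3 → B2 k, H = fun l => hs G xb (chy G l) := ⟨_, rfl⟩
  obtain ⟨ℓ, hℓ⟩ : ∃ ℓ : Fin 3 → B2 k, ℓ = fun l => xb (l + 1) * qb 1 - xb (l + 2) * qb 0 :=
    ⟨_, rfl⟩
  have hl : ∀ l, g ^ (j + 1) ∣ σ l c1 * (d * g) ∧ g ^ (j + 1) ∣ σ l c0 - σ l c1 * (H l * ℓ l) := by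
    intro l
    have h := hORN k G d hI e 3 (j + 1) P hPh 0 l hdvd
    rw [hPe, map_add, map_mul, Psi_C, Psi_C, Psi_X] at h
    unfold gp chw at h
    rw [← map_pow, Polynomial.C_dvd_iff_dvd_coeff] at h
    have e1 := h 1
    have e0 := h 0
    rw [Polynomial.coeff_add, Polynomial.coeff_C_mul, Polynomial.coeff_sub,
      Polynomial.coeff_C_mul, Polynomial.coeff_X_one, mul_one,
      Polynomial.coeff_C_of_ne_zero one_ne_zero, Polynomial.coeff_C_of_ne_zero one_ne_zero, add_zero,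
      sub_zero] at e1
    rw [Polynomial.coeff_add, Polynomial.coeff_C_mul, Polynomial.coeff_sub,
      Polynomial.coeff_C_mul, Polynomial.coeff_X_zero, mul_zero, Polynomial.coeff_C_zero,
      Polynomial.coeff_C_zero] at e0
    rw [hg, hσ, hH, hℓ]
    refine ⟨e1, e0.trans (dvd_of_eq ?_)⟩
    ring
  have hc1g : ∀ l, g ^ j ∣ σ l c1 := by
    intro l
    obtain ⟨u, hu⟩ := (hl l).1
    have hu2 : g * (g ^ j * u) = g * (σ l c1 * d) := by
      rw [pow_succ] at hu
      linear_combination (-1 : B2 k) * hu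
    have h1 : g ^ j ∣ σ l c1 * d := ⟨u, (mul_left_cancel₀ hg0 hu2).symm⟩
    exact (IsUnit.dvd_mul_right (natCast_unit (by omega))).1 h1
  obtain ⟨A1, hA1⟩ := exists_xa hB1.2
  have hσA : ∀ (l : Fin 3) (Q : MvPolynomial (Fin 3) k), σ l (aeval xa Q) = aeval xb Q := by
    intro l Q
    rw [hσ]
    exact sub_xa G l Q
  have hσg : ∀ l, σ l (gA G) = g := by
    intro l
    unfold gA
    rw [hσA, hg]
  have hA1h : A1.IsHomogeneous e := by
    rw [← wx_xa, hA1]
    exact hB1.1
  have hGA : G ^ j ∣ A1 := by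
    apply dvd_of_xb
    rw [map_pow, ← hg, ← hσA 0 A1, hA1]
    exact hc1g 0
  obtain ⟨A, hA⟩ := hGA
  have hA10 : A1 ≠ 0 := by
    intro h
    rw [h, map_zero] at hA1
    exact hc10 hA1.symm
  have hA0 : A ≠ 0 := by
    intro h
    rw [h, mul_zero] at hA
    exact hA10 hA
  have hG0 : G ≠ 0 := hI.irr.ne_zero
  obtain ⟨n1, α, hn, hn1, hα⟩ := Pool.Agent.H60.SM.wh_of_mul (1 : Fin 3 → ℕ)
    (f := G ^ j) (g := A) (n := e) (by rw [← hA]; exact hA10) (by rw [← hA]; exact hA1h)
  have hn1' : n1 = d * j := IsHomogeneous.inj_right hn1 (hI.hom.pow j) (pow_ne_zero _ hG0)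
  have he : e = α + j * d := by
    rw [← hn, hn1', mul_comm d j, add_comm]
  have hαd : 4 * α + 4 ≤ d := by
    have h1 : ((e : ℕ) : ℤ) = α + j * d := by exact_mod_cast he
    rw [h1] at htw
    push_cast at htw
    have h2 : (4 * α : ℤ) < d - 3 := by linarith
    omega
  have hc1e : c1 = gA G ^ j * aeval xa A := by
    rw [← hA1, hA, map_mul, map_pow]
    rfl
  have hcomp : ∀ l, g ^ (j + 1) ∣ σ l c0 - g ^ j * (aeval xb A * H l * ℓ l) := by
    intro l
    have h1 := (hl l).2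
    rw [hc1e, map_mul, map_pow, hσg, hσA] at h1
    refine h1.trans (dvd_of_eq ?_)
    ring
  rcases Nat.eq_zero_or_pos j with hj | hj
  · subst hj
    have hαe : α = e := by omega
    subst hαe
    refine ⟨α, A, c0, hαd, ⟨hα, hA0, hB0, ?_, fun l => ?_⟩, ?_⟩
    · rw [hc0]
      exact hPinv 0
    · have h1 := hcomp l
      rw [hg, hσ, hH, hℓ] at h1
      simpa using h1
    · intro K _ _ D x h
      rw [hPe, hc1e] at h
      unfold evc ev at h
      rw [Polynomial.coe_eval₂RingHom, Polynomial.eval₂_add, Polynomial.eval₂_mul,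
        Polynomial.eval₂_C, Polynomial.eval₂_C, Polynomial.eval₂_X] at h
      have hx2 : ∀ Q : MvPolynomial (Fin 3) k,
          aeval (Sum.elim x fun i => D (x i)) (aeval xa Q : A2 k) = aeval x Q := by
        intro Q
        have h1 : ((aeval (Sum.elim x fun i => D (x i)) : A2 k →ₐ[k] K).comp (aeval xa)) =
            aeval x := by
          refine MvPolynomial.algHom_ext fun i => ?_
          simp [xa]
        exact DFunLike.congr_fun h1 Q
      rw [AlgHom.coe_toRingHom, pow_zero, one_mul, hx2] at h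
      exact h
  · exfalso
    have hnd : ¬ gA G ∣ c0 := by
      intro hdv
      have hdv1 : gA G ∣ c1 := by
        rw [hc1e]
        exact (dvd_pow_self _ (by omega)).mul_right _
      have hdP : gR G ∣ P := by
        rw [hPe]
        unfold gR
        exact dvd_add ((map_dvd Polynomial.C hdv1).mul_right _) (map_dvd Polynomial.C hdv)
      obtain ⟨Q, hQ⟩ := hdP
      rcases hPi.isUnit_or_isUnit hQ with h | h
      · exact hgR.not_unit h
      · have h1 : Q.natDegree = 0 := Polynomial.natDegree_eq_zero_of_isUnit h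
        have h2 : P.natDegree ≤ 0 := by
          rw [hQ]
          refine Polynomial.natDegree_mul_le.trans ?_
          unfold gR
          rw [Polynomial.natDegree_C, h1]
        omega
    obtain ⟨hκ, hω⟩ := hCPO k G d hI e α j A c0 hj hα hB0 (by rw [hc0]; exact hPinv 0) hnd (by
      intro l
      have h1 := hcomp l
      rw [hg, hσ, hH, hℓ] at h1
      exact h1)
    obtain ⟨r, f, N, hr, hf0, hfh, hf⟩ := hJSA k G d hd hN
    exact hnd (hCSA k G d hI r N f hf0 hfh hf e α j c0 hj hκ (by omega) he hB0 hω)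

end Pool.Agent.H78.ND
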