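import Pool.Agent.H84.ND.Targets2

/-!
# MP_70ba79_ag, board `ndc_modules`, row NDN: the dimension inequality
-/

set_option autoImplicit false

namespace Pool.Agent.H78.ND

open MvPolynomial SC Pool.Agent.H27.LV Pool.Agent.H84.SM Pool.Agent.H84.ND

theorem pf_NDN (hND : T_ND) (hLBS : T_LBS) (hEUN : T_EUN) : T_NDN := by
  intro k _ _ _ G d hd hI hS
  obtain ⟨e1, he1⟩ := hLBS k G d hI.two hI.hom hI.irr.ne_zero
  obtain ⟨m0, hm0, h⟩ := hND d hd e1
  refine ⟨d * m0, Nat.mul_pos (by omega) hm0, ?_⟩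
  intro n τ hn hτ0 hτd
  have e36 : 36 * (d * m0) = 36 * d * m0 := by ring
  have e3 : (d - 3) * (d * m0) = (d - 3) * d * m0 := by ring
  have h1 := h n τ (by rw [mul_assoc]; exact hn) hτ0 hτd
  have h2 := (hEUN k G d (by omega) hI.hom hI.irr.squarefree hS n τ).2
  have hfin := (hEUN k G d (by omega) hI.hom hI.irr.squarefree hS (36 * d * m0)
    (-(((d - 3) * d * m0 : ℕ) : ℤ))).1
  have hτ : -(((d - 3) * d * m0 : ℕ) : ℤ) + (((d + 33) * m0 + e1 : ℕ) : ℤ) * d =
      ((36 * d * m0 + d * e1 : ℕ) : ℤ) := by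
    have h4 : 3 ≤ d := by omega
    push_cast [Nat.cast_sub h4]
    ring
  obtain ⟨V, hV, hVf, h3⟩ := he1 (36 * d * m0) ((d + 33) * m0 + e1)
    (-(((d - 3) * d * m0 : ℕ) : ℤ)) (by
      rw [hτ]
      push_cast
      have : (e1 : ℤ) ≤ d * e1 := by
        have h6 : (1 : ℤ) ≤ d := by exact_mod_cast (by omega : 1 ≤ d)
        nlinarith [Int.natCast_nonneg e1]
      linarith)
  rw [hτ] at h3
  have h4 := Submodule.finrank_mono (R := k) hV
  rw [e36, e3]
  omega

end Pool.Agent.H78.ND
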