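import Pool.Agent.H84.ND.Targets3

/-!
# MP_70ba79_ag, board `ndc_modules`, row NSB: the case that there is a section of degree 0 in `w`
and negative twist
-/

set_option autoImplicit false

namespace Pool.Agent.H78.ND

open MvPolynomial SC Pool.Agent.H27.LV Pool.Agent.H84.SM Pool.Agent.H84.ND

/-- a curve whose coordinates are constants lies on a line -/
private lemma const_line {k K : Type} [Field k] [Field K] [Algebra k K] (x : Fin 3 → K)
    (h1 : ∃ j, x j = 1) (hc : ∀ i, x i ∈ Set.range (algebraMap k K)) :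
    ∃ Φ : MvPolynomial (Fin 3) k, Φ ≠ 0 ∧ Φ.IsHomogeneous 1 ∧ aeval x Φ = 0 := by
  obtain ⟨j, hj⟩ := h1
  obtain ⟨i, hi⟩ : ∃ i : Fin 3, i ≠ j := exists_ne j
  obtain ⟨a, ha⟩ := hc i
  refine ⟨X i - C a * X j, ?_, ?_, ?_⟩
  · intro h0
    have h := congrArg (MvPolynomial.coeff (Finsupp.single i 1)) h0
    rw [MvPolynomial.coeff_sub, MvPolynomial.coeff_C_mul, MvPolynomial.coeff_X,
      MvPolynomial.coeff_X, if_pos rfl, if_neg] at h
    · simp at h
    · intro h2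
      exact hi (Finsupp.single_left_injective one_ne_zero h2).symm
  · refine (isHomogeneous_X k i).sub ?_
    have h := (isHomogeneous_C (Fin 3) a).mul (isHomogeneous_X k j)
    simpa using h
  · rw [map_sub, map_mul, aeval_X, aeval_X, MvPolynomial.algHom_C, hj, ha, mul_one, sub_self]

theorem pf_NSB (hSCN : T_SCN) (hFOG : T_FOG) (hFO : Pool.Agent.H3.OD.T_FO)
    (hPRM : Pool.Agent.H84.SM.T_PRM) (hDSC : Pool.Agent.H84.SM.T_DSC)
    (hIMF : Pool.Agent.H84.SM.T_IMF) (hCAN : Pool.Agent.H84.SM.T_CAN) : T_NSB := by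
  intro k _ _ _ G d hd hG hsq hnod hstr
  obtain ⟨n, t, M, c, ht, hsec, hc0⟩ : ∃ (n t M : ℕ) (c : A2 k), 1 ≤ t ∧
      IsSec G d n (-(t : ℤ)) M (Polynomial.C c) ∧ c ≠ 0 := by
    by_contra hne
    exact hstr fun n t M c ht hsec => by
      by_contra hc
      exact hne ⟨n, t, M, c, ht, hsec, hc⟩
  have hdv : dv c = 0 := by
    have h := hsec.1 0
    rwa [Polynomial.coeff_C_zero] at h
  have hbh : ∃ e i, BH e i c := by
    obtain ⟨e, -, he⟩ := hsec.2.1
    have h := (he 0).1 (by omega)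
    rw [Polynomial.coeff_C_zero] at h
    exact ⟨e, _, h⟩
  obtain ⟨C0, hC0⟩ := hFOG hFO k G d hd hG c hc0 hdv hbh
  refine ⟨2 * n + 7 * C0 + 2, ?_⟩
  intro K _ _ _ htr D hD x S hx
  have hcan := hCAN k K htr D hD
  have hm1 : (1 : ℤ) ≤ max 1 (canDeg D + S.card) := le_max_left _ _
  have hm2 : canDeg D + (S.card : ℤ) ≤ max 1 (canDeg D + S.card) := le_max_right _ _
  generalize max 1 (canDeg D + (S.card : ℤ)) = m at hm1 hm2
  have hn0 : (0 : ℤ) ≤ (n : ℤ) * m := by positivity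
  -- reduction to the bound of the degree of a form by the number of places
  have hred : (∃ (e : ℕ) (Φ : MvPolynomial (Fin 3) k), e ≤ 2 * (C0 * S.card) +
      C0 + 1 ∧ Φ ≠ 0 ∧ Φ.IsHomogeneous e ∧ aeval x Φ = 0) →
      ∃ (e : ℕ) (Φ : MvPolynomial (Fin 3) k), (e : ℤ) ≤ ((2 * n + 7 * C0 + 2 : ℕ) : ℤ) * m ∧
        Φ ≠ 0 ∧ Φ.IsHomogeneous e ∧ aeval x Φ = 0 := by
    rintro ⟨e, Φ, he, hΦ⟩
    refine ⟨e, Φ, ?_, hΦ⟩
    have h1 : (e : ℤ) ≤ 2 * ((C0 : ℤ) * (S.card : ℤ)) + (C0 : ℤ) + 1 := by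
      exact_mod_cast he
    have h2 : (S.card : ℤ) ≤ 3 * m := by omega
    have h3 : (0 : ℤ) ≤ (C0 : ℤ) := by positivity
    have h4 : (C0 : ℤ) * (S.card : ℤ) ≤ (C0 : ℤ) * (3 * m) :=
      mul_le_mul_of_nonneg_left h2 h3
    have h5 : (C0 : ℤ) * 1 ≤ (C0 : ℤ) * m := mul_le_mul_of_nonneg_left hm1 h3
    push_cast
    nlinarith
  by_cases hcc : ∀ i, x i ∈ Set.range (algebraMap k K)
  · obtain ⟨Φ, h1, h2, h3⟩ := const_line x hx.one hcc
    exact hred ⟨1, Φ, by omega, h1, h2, h3⟩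
  by_cases hev : aeval (Sum.elim x fun i => D (x i)) c = 0
  · rcases hPRM k G d hG K htr D hD x S hx with hcc' | ⟨K0, i1, i2, i3, ι, x0, D0, μ, S0, ht0,
      hD0, hx0, hpr, hμ, hDμ, hcr, hcard⟩
    · exact absurd hcc' hcc
    · have hxx : x = fun j => ι (x0 j) := funext fun j => (hx0 j).symm
      have hdsc := hDSC k K0 K ι D D0 μ x0 hμ hDμ
      have hav : ∀ Φ : MvPolynomial (Fin 3) k, aeval x0 Φ = 0 → aeval x Φ = 0 := by
        intro Φ h0
        have h2 : aeval x Φ = ι (aeval x0 Φ) := by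
          rw [hxx, ← MvPolynomial.comp_aeval_apply]
        rw [h2, h0, map_zero]
      obtain ⟨e', i', hbh'⟩ := hbh
      rw [hxx] at hev
      apply hred
      rcases hC0 K0 ht0 D0 hD0 x0 S0 hpr hcr (hdsc.1 c e' i' hbh' hev) with
        ⟨e, Φ, he, h1, h2, h3⟩ | hdeg
      · exact ⟨e, Φ, by omega, h1, h2, hav Φ h3⟩
      · obtain ⟨e, Φ, he, h1, h2, h3⟩ := hIMF k K0 ht0 x0 hcr.one
        refine ⟨e, Φ, ?_, h1, h2, hav Φ h3⟩
        have h4 : C0 * S0.card ≤ C0 * S.card := Nat.mul_le_mul_left _ hcard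
        omega
  · have hev' : evc D x (Polynomial.C c) ≠ 0 := by
      unfold evc ev
      rw [Polynomial.coe_eval₂RingHom, Polynomial.eval₂_C]
      exact hev
    have h1 := hSCN k G d hd hG hsq hnod K htr D hD x S hx n t M _ hsec hev'
    have hdeg : (0 : ℤ) ≤ (deg k x : ℕ) := Int.natCast_nonneg _
    have ht' : (1 : ℤ) ≤ t := by exact_mod_cast ht
    have h2 : ((deg k x : ℕ) : ℤ) ≤ t * deg k x := by nlinarith
    have h3 : (n : ℤ) * (canDeg D + S.card) ≤ n * m :=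
      mul_le_mul_of_nonneg_left hm2 (Int.natCast_nonneg _)
    obtain ⟨e, Φ, he, hΦ⟩ := hIMF k K htr x hx.one
    refine ⟨e, Φ, ?_, hΦ⟩
    have he' : (e : ℤ) ≤ 2 * (deg k x : ℤ) + 1 := by exact_mod_cast he
    have h4 : (0 : ℤ) ≤ (C0 : ℤ) * m := by positivity
    push_cast
    nlinarith

end Pool.Agent.H78.ND
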